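import Mathlib

namespace Pool.Agent.Results.MP_4a5b11_an.NonDyadic

open Set

/-- distance to the nearest integer -/
noncomputable def phi (x : ℝ) : ℝ := Metric.infDist x (range (Int.cast : ℤ → ℝ))

/-- the Takagi function -/
noncomputable def T (x : ℝ) : ℝ := ∑' n : ℕ, phi (2 ^ n * x) / 2 ^ n

/-- the level set of the Takagi function on the unit interval -/
def L (y : ℝ) : Set ℝ := {x | x ∈ Icc (0 : ℝ) 1 ∧ T x = y}

theorem phi_eq (x : ℝ) : phi x = |x - round x| := by
  refine le_antisymm ?_ ?_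
  · have := Metric.infDist_le_dist_of_mem (x := x) (s := range (Int.cast : ℤ → ℝ))
      ⟨round x, rfl⟩
    rwa [Real.dist_eq] at this
  · refine (Metric.le_infDist (range_nonempty _)).2 ?_
    rintro _ ⟨z, rfl⟩
    rw [Real.dist_eq]
    exact round_le x z

theorem phi_le (x : ℝ) (z : ℤ) : phi x ≤ |x - z| := phi_eq x ▸ round_le x z

theorem phi_nonneg (x : ℝ) : 0 ≤ phi x := Metric.infDist_nonneg

theorem phi_half (x : ℝ) : phi x ≤ 1 / 2 := phi_eq x ▸ abs_sub_round x

theorem phi_add (x : ℝ) (z : ℤ) : phi (x + z) = phi x := by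
  rw [phi_eq, phi_eq, round_add_intCast]
  congr 1
  push_cast
  ring

theorem phi_neg (x : ℝ) : phi (-x) = phi x := by
  have key : ∀ x : ℝ, phi (-x) ≤ phi x := fun x => by
    refine (phi_le (-x) (-round x)).trans ?_
    rw [phi_eq, ← abs_neg]
    push_cast
    ring_nf
    exact le_rfl
  exact le_antisymm (key x) (by simpa using key (-x))

theorem phi_small {x : ℝ} (h0 : 0 ≤ x) (h1 : x ≤ 1 / 2) : phi x = x := by
  refine le_antisymm (by simpa [abs_of_nonneg h0] using phi_le x 0) ?_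
  rw [phi_eq]
  rcases le_or_gt (round x) 0 with h | h
  · have : ((round x : ℤ) : ℝ) ≤ 0 := by exact_mod_cast h
    exact le_trans (by linarith) (le_abs_self _)
  · have : (1 : ℝ) ≤ ((round x : ℤ) : ℝ) := by exact_mod_cast h
    exact le_trans (by linarith) (neg_le_abs _)

theorem term_le (n : ℕ) (x : ℝ) : ‖phi (2 ^ n * x) / 2 ^ n‖ ≤ (1 / 2) ^ n := by
  rw [Real.norm_eq_abs, abs_of_nonneg (div_nonneg (phi_nonneg _) (by positivity)), one_div_pow]
  gcongr
  linarith [phi_half (2 ^ n * x)]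

theorem summ (x : ℝ) : Summable fun n : ℕ => phi (2 ^ n * x) / 2 ^ n :=
  Summable.of_norm_bounded summable_geometric_two fun n => term_le n x

theorem T_cont : Continuous T := by
  refine continuous_tsum (fun n => ?_) summable_geometric_two term_le
  have : Continuous phi := Metric.continuous_infDist_pt _
  fun_prop

theorem T_eq (x : ℝ) : T x = phi x + T (2 * x) / 2 := by
  unfold T
  rw [(summ x).tsum_eq_zero_add, ← tsum_div_const]
  simp only [pow_zero, one_mul, div_one]
  congr 1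
  refine tsum_congr fun n => ?_
  rw [pow_succ, mul_assoc, div_div]

theorem T_add (x : ℝ) (z : ℤ) : T (x + z) = T x := by
  refine tsum_congr fun n => ?_
  rw [mul_add, show (2 : ℝ) ^ n * z = ((2 ^ n * z : ℤ) : ℝ) by push_cast; ring, phi_add]

theorem T_neg (x : ℝ) : T (-x) = T x := by
  refine tsum_congr fun n => ?_
  rw [mul_neg, phi_neg]

theorem T_nonneg (x : ℝ) : 0 ≤ T x :=
  tsum_nonneg fun _ => div_nonneg (phi_nonneg _) (by positivity)

theorem T_zero : T 0 = 0 := by
  have := T_eq 0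
  rw [phi_small le_rfl (by norm_num), mul_zero] at this
  linarith

theorem T_symm (t : ℝ) : T (1 - t) = T t := by
  rw [← T_neg t, ← T_add (-t) 1]
  congr 1
  push_cast
  ring

theorem T_one : T 1 = 0 := by rw [← T_zero, ← T_symm 0, sub_zero]

theorem T_left {t : ℝ} (h : t ∈ Icc (0 : ℝ) 1) : T (t / 2) = t / 2 + T t / 2 := by
  rw [T_eq, phi_small (by linarith [h.1]) (by linarith [h.2]), mul_div_cancel₀ _ two_ne_zero]

theorem T_right {t : ℝ} (h : t ∈ Icc (0 : ℝ) 1) : T ((1 + t) / 2) = (1 - t) / 2 + T t / 2 := by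
  rw [← T_symm, show 1 - (1 + t) / 2 = (1 - t) / 2 by ring,
    T_left ⟨by linarith [h.2], by linarith [h.1]⟩, T_symm]

theorem T_le (x : ℝ) (hx : x ∈ Icc (0 : ℝ) 1) : T x ≤ 2 / 3 := by
  obtain ⟨z, hz, hm⟩ := isCompact_Icc.exists_isMaxOn (s := Icc (0 : ℝ) 1) ⟨0, by simp⟩
    T_cont.continuousOn
  have hm' : ∀ t ∈ Icc (0 : ℝ) 1, T t ≤ T z := fun t ht => hm ht
  have h1 : ∀ t ∈ Icc (0 : ℝ) 1, t + T t ≤ 1 + T z / 2 := by
    intro t ht
    rcases le_total t (1 / 2) with h | h
    · have h2 : 2 * t ∈ Icc (0 : ℝ) 1 := ⟨by linarith [ht.1], by linarith⟩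
      have := T_left h2
      rw [mul_div_cancel_left₀ _ two_ne_zero] at this
      linarith [hm' _ h2]
    · have h2 : 2 * t - 1 ∈ Icc (0 : ℝ) 1 := ⟨by linarith, by linarith [ht.2]⟩
      have := T_right h2
      rw [show (1 + (2 * t - 1)) / 2 = t by ring] at this
      linarith [hm' _ h2]
  have h3 : T z ≤ 2 / 3 := by
    rcases le_total z (1 / 2) with h | h
    · have h2 : 2 * z ∈ Icc (0 : ℝ) 1 := ⟨by linarith [hz.1], by linarith⟩
      have := T_left h2
      rw [mul_div_cancel_left₀ _ two_ne_zero] at this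
      linarith [h1 _ h2]
    · have h2 : 2 * (1 - z) ∈ Icc (0 : ℝ) 1 := ⟨by linarith [hz.2], by linarith⟩
      have := T_left h2
      rw [mul_div_cancel_left₀ _ two_ne_zero, T_symm] at this
      linarith [h1 _ h2]
  exact (hm' x hx).trans h3

theorem top (D : ℕ) : ∀ t ∈ Icc (0 : ℝ) 1, D * t + T t ≤ D + 2 / 3 / 2 ^ D := by
  induction D with
  | zero => intro t ht; simpa using T_le t ht
  | succ D ih =>
    intro t ht
    have hD : (0 : ℝ) ≤ D := Nat.cast_nonneg D
    rcases le_total t (1 / 2) with h | h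
    · have h1 := T_le t ht
      rcases Nat.eq_zero_or_pos D with rfl | hp
      · norm_num
        linarith
      · have h2 : (1 : ℝ) ≤ D := by exact_mod_cast hp
        have h3 : (0 : ℝ) ≤ 2 / 3 / 2 ^ (D + 1) := by positivity
        push_cast
        nlinarith
    · have h2 : 2 * t - 1 ∈ Icc (0 : ℝ) 1 := ⟨by linarith, by linarith [ht.2]⟩
      have h3 := T_right h2
      rw [show (1 + (2 * t - 1)) / 2 = t by ring] at h3
      have h4 := ih _ h2
      have h5 : (2 : ℝ) / 3 / 2 ^ (D + 1) = 2 / 3 / 2 ^ D / 2 := by rw [pow_succ, div_div _ _ 2]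
      rw [h5]
      push_cast
      linarith

/-- common denominator -/
def q : ℤ := 37449

/-- the level sets of the tilted Takagi functions -/
def A (D a : ℤ) : Set ℝ := {t | t ∈ Icc (0 : ℝ) 1 ∧ D * t + T t = a / q}

theorem q_pos : (0 : ℝ) < (q : ℤ) := by unfold q; norm_num

/-- empty states -/
def dead (D a : ℤ) : Prop :=
  (0 ≤ D ∧ (a < 0 ∨ 2 * q < 3 * 2 ^ D.toNat * (a - D * q))) ∨
  (D ≤ 0 ∧ (a - D * q < 0 ∨ 2 * q < 3 * 2 ^ (-D).toNat * a))

instance (D a : ℤ) : Decidable (dead D a) := by unfold dead; infer_instance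

theorem dead_pos (D : ℕ) (a : ℤ) (h : a < 0 ∨ 2 * q < 3 * 2 ^ D * (a - D * q)) : A D a = ∅ := by
  refine eq_empty_of_forall_notMem fun t ⟨ht, e⟩ => ?_
  have hq := q_pos
  rw [eq_div_iff hq.ne'] at e
  rcases h with h | h
  · have h1 : (a : ℝ) < 0 := by exact_mod_cast h
    have : (0 : ℝ) ≤ (((D : ℤ) : ℝ) * t + T t) * q := by
      have := ht.1
      have := T_nonneg t
      positivity
    linarith
  · have h1 : (2 * q : ℝ) < 3 * 2 ^ D * (a - D * q) := by exact_mod_cast h
    have h2 := top D t ht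
    have h3 : (0 : ℝ) < 2 ^ D := by positivity
    have h4 : (D * t + T t - D) * (3 * 2 ^ D) ≤ 2 := by
      rw [← le_div_iff₀ (by positivity), ← div_div]
      linarith
    push_cast at e
    rw [← e] at h1
    nlinarith

theorem A_symm {D a : ℤ} {t : ℝ} (h : t ∈ A D a) : 1 - t ∈ A (-D) (a - D * q) := by
  refine ⟨⟨by linarith [h.1.2], by linarith [h.1.1]⟩, ?_⟩
  rw [T_symm]
  push_cast
  rw [sub_div, ← h.2, mul_div_cancel_right₀ _ q_pos.ne']
  ring

theorem dead_empty {D a : ℤ} (h : dead D a) : A D a = ∅ := by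
  rcases h with ⟨h0, h⟩ | ⟨h0, h⟩
  · obtain ⟨n, rfl⟩ := Int.eq_ofNat_of_zero_le h0
    exact dead_pos n a (by simpa using h)
  · obtain ⟨n, hn⟩ := Int.eq_ofNat_of_zero_le (neg_nonneg.2 h0)
    refine eq_empty_of_forall_notMem fun t ht => ?_
    have h1 := A_symm ht
    rw [hn, dead_pos n] at h1
    · exact h1
    · rw [hn] at h
      have : D = -n := by omega
      subst this
      simpa using h

/-- the two inverse branches -/
noncomputable def br (b : Bool) (t : ℝ) : ℝ := if b then (1 + t) / 2 else t / 2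

/-- the successor state -/
def nx (b : Bool) (s : ℤ × ℤ) : ℤ × ℤ :=
  if b then (s.1 - 1, 2 * s.2 - (s.1 + 1) * q) else (s.1 + 1, 2 * s.2)

theorem br_mem (b : Bool) (s : ℤ × ℤ) {t : ℝ} (ht : t ∈ Icc (0 : ℝ) 1) :
    br b t ∈ A s.1 s.2 ↔ t ∈ A (nx b s).1 (nx b s).2 := by
  have hq := q_pos
  cases b
  · simp only [br, nx, A, mem_ofPred_eq, Bool.false_eq_true, if_false, T_left ht, ht, true_and]
    push_cast
    rw [mul_div_assoc 2]
    constructor
    · intro h; linarith [h.2]
    · intro h; exact ⟨⟨by linarith [ht.1], by linarith [ht.2]⟩, by linarith⟩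
  · simp only [br, nx, A, mem_ofPred_eq, if_true, T_right ht, ht, true_and]
    push_cast
    rw [sub_div (2 * (s.2 : ℝ)), mul_div_assoc (2 : ℝ), mul_div_cancel_right₀ _ hq.ne']
    constructor
    · intro h; linarith [h.2]
    · intro h; exact ⟨⟨by linarith [ht.1], by linarith [ht.2]⟩, by linarith⟩

theorem A_sub (s : ℤ × ℤ) (b : Bool) : A s.1 s.2 ⊆ br b '' A (nx b s).1 (nx b s).2 ∪
    br (!b) '' A (nx (!b) s).1 (nx (!b) s).2 := by
  have key : ∀ t ∈ A s.1 s.2, ∃ c, t ∈ br c '' A (nx c s).1 (nx c s).2 := by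
    intro t ht
    rcases le_total t (1 / 2) with h | h
    · have h2 : 2 * t ∈ Icc (0 : ℝ) 1 := ⟨by linarith [ht.1.1], by linarith⟩
      have e : br false (2 * t) = t := by simp [br]
      exact ⟨false, 2 * t, (br_mem false s h2).1 (e.symm ▸ ht), e⟩
    · have h2 : 2 * t - 1 ∈ Icc (0 : ℝ) 1 := ⟨by linarith, by linarith [ht.1.2]⟩
      have e : br true (2 * t - 1) = t := by simp [br]
      exact ⟨true, 2 * t - 1, (br_mem true s h2).1 (e.symm ▸ ht), e⟩
  intro t ht
  obtain ⟨c, hc⟩ := key t ht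
  cases b <;> cases c
  · exact Or.inl hc
  · exact Or.inr hc
  · exact Or.inr hc
  · exact Or.inl hc

theorem br_dist (b : Bool) (t u : ℝ) : |br b t - br b u| = |t - u| / 2 := by
  have : br b t - br b u = (t - u) / 2 := by cases b <;> simp [br] <;> ring
  rw [this, abs_div, abs_two]

theorem count_lemma {ι : Type} (B : ι → Set ℝ) (n : ι → ι) (b : ι → Bool)
    (h1 : ∀ i, B i ⊆ Icc 0 1) (h2 : ∀ i, (B i \ br (b i) '' B (n i)).Countable) (i : ι) :
    (B i).Countable := by
  let C : ℕ → ι → Set ℝ := fun k => Nat.rec B (fun _ c i => br (b i) '' c (n i)) k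
  have c1 : ∀ k i, (B i \ C k i).Countable := by
    intro k
    induction k with
    | zero => intro i; simp [C]
    | succ k ih =>
      intro i
      refine ((h2 i).union ((ih (n i)).image (br (b i)))).mono fun t ht => ?_
      by_cases h : t ∈ br (b i) '' B (n i)
      · obtain ⟨u, hu, rfl⟩ := h
        exact Or.inr ⟨u, ⟨hu, fun hc => ht.2 ⟨u, hc, rfl⟩⟩, rfl⟩
      · exact Or.inl ⟨ht.1, h⟩
  have c2 : ∀ k i, ∀ t ∈ C k i, ∀ u ∈ C k i, |t - u| ≤ (1 / 2) ^ k := by
    intro k
    induction k with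
    | zero =>
      intro i t ht u hu
      have a1 := h1 i ht
      have a2 := h1 i hu
      rw [pow_zero, abs_le]
      constructor <;> linarith [a1.1, a1.2, a2.1, a2.2]
    | succ k ih =>
      rintro i _ ⟨t, ht, rfl⟩ _ ⟨u, hu, rfl⟩
      rw [br_dist, pow_succ]
      linarith [ih _ t ht u hu]
  have c3 : (⋂ k, C k i).Subsingleton := by
    intro t ht u hu
    by_contra hne
    obtain ⟨k, hk⟩ := exists_pow_lt_of_lt_one (abs_pos.2 (sub_ne_zero.2 hne))
      (show (1 / 2 : ℝ) < 1 by norm_num)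
    exact absurd (c2 k i t (mem_iInter.1 ht k) u (mem_iInter.1 hu k)) (not_le.2 hk)
  refine (c3.countable.union (countable_iUnion fun k => c1 k i)).mono fun t ht => ?_
  by_cases h : t ∈ ⋂ k, C k i
  · exact Or.inl h
  · rw [mem_iInter, not_forall] at h
    obtain ⟨k, hk⟩ := h
    exact Or.inr (mem_iUnion.2 ⟨k, ht, hk⟩)

/-- the finite automaton, with the rank of each state -/
def S : List (ℤ × ℤ × ℕ) :=
  [(3, 84215, 0), (4, 135730, 0), (5, 180212, 0), (4, 90106, 0), (5, 157400, 0),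
   (4, 78700, 0), (5, 151697, 0), (6, 206920, 0), (5, 103460, 0), (4, 51730, 0),
   (5, 138212, 0), (4, 69106, 0), (5, 146900, 0), (4, 73450, 0), (5, 149072, 0),
   (4, 74536, 0), (3, 37268, 0), (2, 18634, 0), (1, 9317, 1), (2, 60832, 2),
   (1, 30416, 3), (-3, -28132, 4), (-4, -14066, 4), (-5, -7033, 4), (-4, -59690, 4),
   (-5, -29845, 4), (-4, -71096, 4), (-5, -35548, 4), (-6, -17774, 4), (-5, -83785, 4),
   (-4, -98066, 4), (-5, -49033, 4), (-4, -80690, 4), (-5, -40345, 4), (-4, -76346, 4),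
   (-5, -38173, 4), (-4, -75260, 4), (-3, -75079, 4), (-2, -56264, 4), (-1, -28132, 5),
   (-2, -14066, 6), (-1, -7033, 7), (0, 15208, 8), (1, 45053, 9), (2, 78700, 10),
   (3, 114248, 11), (3, 103460, 12), (2, 51730, 12), (3, 100763, 12), (4, 144004, 12),
   (5, 184349, 12), (6, 223246, 12), (7, 261419, 12), (8, 299230, 12), (7, 149615, 12),
   (8, 243328, 12), (7, 121664, 12), (6, 60832, 12), (5, 30416, 12), (4, 15208, 12),
   (3, 7604, 12), (2, 3802, 12), (1, 1901, 12), (2, 57124, 12), (1, 28562, 13),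
   (-1, 7604, 14), (-2, 3802, 15), (-3, 1901, 16), (-3, -8887, 17), (-2, -23168, 17),
   (-3, -11584, 17), (-4, -5792, 17), (-5, -2896, 17), (-6, -1448, 17), (-7, -724, 17),
   (-8, -362, 17), (-7, -112528, 17), (-8, -56264, 17), (-7, -140479, 17), (-6, -163862, 17),
   (-5, -156829, 17), (-4, -134588, 17), (-3, -104743, 17), (-2, -71096, 17), (-1, -35548, 17),
   (-2, -17774, 17), (-1, -8887, 18), (0, 14281, 19)]

/-- the state is empty or has smaller rank -/
def lower (s : ℤ × ℤ) (k : ℕ) : Prop := dead s.1 s.2 ∨ ∃ e ∈ S, e.1 = s.1 ∧ e.2.1 = s.2 ∧ e.2.2 < k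

instance (s : ℤ × ℤ) (k : ℕ) : Decidable (lower s k) := by unfold lower; infer_instance

theorem check : ∀ e ∈ S, ∃ b : Bool, lower (nx (!b) (e.1, e.2.1)) e.2.2 ∧
    (lower (nx b (e.1, e.2.1)) e.2.2 ∨
      ((nx b (e.1, e.2.1)).1, (nx b (e.1, e.2.1)).2, e.2.2) ∈ S) := by
  decide +kernel

theorem countable_all (k : ℕ) : ∀ e ∈ S, e.2.2 = k → (A e.1 e.2.1).Countable := by
  induction k using Nat.strong_induction_on with
  | _ k ih =>
  have low : ∀ s, lower s k → (A s.1 s.2).Countable := by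
    rintro s (h | ⟨e, he, h1, h2, h3⟩)
    · rw [dead_empty h]; exact countable_empty
    · rw [← h1, ← h2]; exact ih _ h3 e he rfl
  have key : ∀ i : {e : ℤ × ℤ × ℕ // e ∈ S ∧ e.2.2 = k},
      ∃ (j : {e : ℤ × ℤ × ℕ // e ∈ S ∧ e.2.2 = k}) (b : Bool),
        (A i.1.1 i.1.2.1 \ br b '' A j.1.1 j.1.2.1).Countable := by
    rintro ⟨e, he, hk⟩
    obtain ⟨b, h1, h2⟩ := check e he
    rw [hk] at h1 h2
    have s := A_sub (e.1, e.2.1) b
    rcases h2 with h2 | h2
    · exact ⟨⟨e, he, hk⟩, b, (((low _ h2).image _).union ((low _ h1).image _)).mono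
        (sdiff_subset.trans s)⟩
    · refine ⟨⟨_, h2, rfl⟩, b, ((low _ h1).image (br (!b))).mono fun t ht => ?_⟩
      exact (s ht.1).resolve_left ht.2
  choose n b h using key
  intro e he hk
  exact count_lemma (fun i : {e : ℤ × ℤ × ℕ // e ∈ S ∧ e.2.2 = k} => A i.1.1 i.1.2.1) n b
    (fun i t ht => ht.1) h ⟨e, he, hk⟩

/-- following a word -/
def run : List Bool → ℤ × ℤ → ℤ × ℤ
  | [], s => s
  | b :: w, s => run w (nx b s)

/-- the inverse branch along a word -/
noncomputable def brs : List Bool → ℝ → ℝ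
  | [], t => t
  | b :: w, t => br b (brs w t)

theorem brs_mem (w : List Bool) : ∀ (s : ℤ × ℤ) (t : ℝ), t ∈ A (run w s).1 (run w s).2 →
    brs w t ∈ A s.1 s.2 := by
  induction w with
  | nil => intro s t h; exact h
  | cons b w ih =>
    intro s t h
    have := ih _ t h
    exact (br_mem b s this.1).2 this

theorem brs_inj (w : List Bool) : Function.Injective (brs w) := by
  induction w with
  | nil => exact fun _ _ h => h
  | cons b w ih =>
    intro t u h
    apply ih
    have := br_dist b (brs w t) (brs w u)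
    rw [show br b (brs w t) = br b (brs w u) from h, sub_self, abs_zero] at this
    exact sub_eq_zero.1 (abs_eq_zero.1 (by linarith))

/-- the cycle, without its first letter -/
def cyc : List Bool := [false, false, false, false, false, false, false, true, false, true, true,
  true, true, true, true, false, true]

theorem inf_branch : (A 2 57124).Infinite := by
  intro hf
  have h1 : MapsTo (brs (true :: cyc)) (A 2 57124) (A 2 57124) := fun t ht =>
    brs_mem (true :: cyc) (2, 57124) t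
      (by rw [show run (true :: cyc) (2, 57124) = (2, 57124) by decide +kernel]; exact ht)
  have h2 := (hf.injOn_iff_bijOn_of_mapsTo h1).1 (brs_inj _).injOn
  have h3 : ∃ t, t ∈ A 1 30416 := by
    have c : ContinuousOn (fun t : ℝ => ((1 : ℤ) : ℝ) * t + T t) (Icc 0 1) :=
      (by have := T_cont; fun_prop : Continuous _).continuousOn
    obtain ⟨t, ht, e⟩ := intermediate_value_Icc zero_le_one c
      (show ((30416 : ℤ) : ℝ) / q ∈ _ by
        simp only [T_zero, T_one, q]
        constructor <;> norm_num)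
    exact ⟨t, ht, e⟩
  obtain ⟨t, ht⟩ := h3
  have h4 : brs [true, true, true, false] t ∈ A 3 114248 :=
    brs_mem _ (3, 114248) t
      (by rw [show run [true, true, true, false] (3, 114248) = (1, 30416) by decide +kernel]
          exact ht)
  generalize brs [true, true, true, false] t = u at h4
  have h5 : br false u ∈ A 2 57124 := (br_mem false (2, 57124) h4.1).2 h4
  obtain ⟨v, hv, e⟩ := h2.surjOn h5
  have h6 : brs cyc v ∈ A 1 1901 := brs_mem _ (1, 1901) v
    (by rw [show run cyc (1, 1901) = (2, 57124) by decide +kernel]; exact hv)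
  have e2 : (1 + brs cyc v) / 2 = u / 2 := by simpa [brs, br] using e
  have h7 : u = 1 := by linarith [h6.1.1, h4.1.2]
  have h8 := h4.2
  rw [h7, T_one, q] at h8
  norm_num at h8

theorem dyadic (m : ℕ) : ∀ k : ℤ, ∃ z : ℤ, 2 ^ m * T (k / 2 ^ m) = z := by
  induction m with
  | zero =>
    intro k
    refine ⟨0, ?_⟩
    have := T_add 0 k
    rw [zero_add, T_zero] at this
    simp [this]
  | succ m ih =>
    intro k
    obtain ⟨z, hz⟩ := ih k
    refine ⟨|k - 2 ^ (m + 1) * round ((k : ℝ) / 2 ^ (m + 1))| + z, ?_⟩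
    rw [T_eq, phi_eq, show 2 * ((k : ℝ) / 2 ^ (m + 1)) = k / 2 ^ m by field_simp; ring]
    push_cast
    rw [← hz, mul_add, ← abs_of_pos (show (0 : ℝ) < 2 ^ (m + 1) by positivity), ← abs_mul,
      abs_of_pos (show (0 : ℝ) < 2 ^ (m + 1) by positivity)]
    congr 1
    · congr 1
      field_simp
    · ring

theorem result : ∃ y ∈ Icc (0 : ℝ) (2 / 3), y = 14281 / 37449 ∧ (L y).Countable ∧ (L y).Infinite ∧
    ∀ m k : ℕ, k ≤ 2 ^ m → T (k / 2 ^ m) ≠ y := by
  have e : L (14281 / 37449) = A 0 14281 := by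
    ext t
    simp [L, A, q]
  refine ⟨14281 / 37449, ⟨by norm_num, by norm_num⟩, rfl, ?_, ?_, fun m k _ h => ?_⟩
  · rw [e]
    exact countable_all 19 (0, 14281, 19) (by decide +kernel) rfl
  · rw [e]
    refine (inf_branch.image (brs_inj [false, false]).injOn).mono ?_
    rintro _ ⟨t, ht, rfl⟩
    exact brs_mem _ (0, 14281) t
      (by rw [show run [false, false] (0, 14281) = (2, 57124) by decide +kernel]; exact ht)
  · obtain ⟨z, hz⟩ := dyadic m k
    rw [Int.cast_natCast, h] at hz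
    have h2 : (2 : ℤ) ^ m * 14281 = 37449 * z := by
      have : (2 : ℝ) ^ m * 14281 = 37449 * z := by rw [← hz]; ring
      exact_mod_cast this
    have h3 : (3 : ℤ) ∣ 2 ^ m * 14281 := ⟨12483 * z, by rw [h2]; ring⟩
    rcases Int.prime_three.dvd_or_dvd h3 with h4 | h4
    · have := Int.prime_three.dvd_of_dvd_pow h4
      norm_num at this
    · norm_num at h4

end Pool.Agent.Results.MP_4a5b11_an.NonDyadic
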